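import Pool.Agent.Y775.CC.Branch
set_option autoImplicit false

/-!
The branch of `√((u + ω + 1/ω) / ω)` near the interval `[-2, 2]`, for complex `ω` with `|ω| > 1`: it is
in the half planes `Re (y conj p) > 0` for `p = 1 + 1/ω` and for `p = 1 - 1/ω`.
-/

namespace Pool.Agent.Y775.UN

open Metric Set Complex

open Pool.Agent.Y775.CC (seg mem_seg isCompact_seg convex_seg)

open scoped ComplexConjugate

theorem norm_of_real {ω : ℂ} (h0 : ω ≠ 0) {τ : ℝ} (hτ : |τ| ≤ 2) (h : ω + ω⁻¹ = τ) : ‖ω‖ = 1 := by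
  have hN : 0 < normSq ω := normSq_pos.2 h0
  have him : ω.im * (1 - (normSq ω)⁻¹) = 0 := by
    have h1 := congrArg Complex.im h
    rw [add_im, inv_im, ofReal_im] at h1
    have h2 : -ω.im / normSq ω = -(ω.im * (normSq ω)⁻¹) := by
      rw [neg_div, div_eq_mul_inv]
    rw [h2] at h1
    linarith
  rcases mul_eq_zero.1 him with h1 | h1
  · -- real
    have hre : ω = (ω.re : ℂ) := by
      apply Complex.ext
      · simp
      · simpa using h1
    have hx0 : ω.re ≠ 0 := fun h2 => h0 (by rw [hre, h2, ofReal_zero])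
    have h2 : ω.re + (ω.re)⁻¹ = τ := by
      rw [hre] at h
      exact_mod_cast h
    have h3 : |ω.re| + |ω.re|⁻¹ ≤ 2 := by
      have h4 : |ω.re + (ω.re)⁻¹| = |ω.re| + |ω.re|⁻¹ := by
        rcases lt_or_gt_of_ne hx0 with h5 | h5
        · have h6 : (ω.re)⁻¹ < 0 := inv_lt_zero.2 h5
          rw [abs_of_neg h5, abs_of_neg (by linarith), inv_neg]
          ring
        · have h6 : 0 < (ω.re)⁻¹ := inv_pos.2 h5
          rw [abs_of_pos h5, abs_of_pos (by linarith)]
      rw [← h4, h2]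
      exact hτ
    have h4 : 0 < |ω.re| := abs_pos.2 hx0
    have h5 : (|ω.re| - 1) ^ 2 ≤ 0 := by
      have h6 : |ω.re| * |ω.re|⁻¹ = 1 := mul_inv_cancel₀ h4.ne'
      have h7 : |ω.re| * (|ω.re| + |ω.re|⁻¹) ≤ |ω.re| * 2 := mul_le_mul_of_nonneg_left h3 h4.le
      nlinarith
    have h6 : |ω.re| = 1 := by nlinarith [sq_nonneg (|ω.re| - 1)]
    rw [hre, norm_real, Real.norm_eq_abs, h6]
  · have h2 : normSq ω = 1 := by
      have h3 : (normSq ω)⁻¹ = 1 := by linarith
      exact inv_eq_one.1 h3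
    rw [normSq_eq_norm_sq] at h2
    exact (pow_eq_one_iff_of_nonneg (norm_nonneg _) two_ne_zero).1 h2

/-- The quotient `(u + ω + 1/ω) / (ω + 1/ω + 2 ε)`, `ε = ± 1`. -/
theorem mem_slit {ω : ℂ} (h0 : ω ≠ 0) (h1 : ‖ω‖ ≠ 1) {ε t : ℝ} (hε : |ε| = 1) (ht : |t| ≤ 2) :
    ω + ω⁻¹ + 2 * ε ≠ 0 ∧ (t + ω + ω⁻¹) / (ω + ω⁻¹ + 2 * ε) ∈ slitPlane := by
  have hne : ω + ω⁻¹ + 2 * ε ≠ 0 := by
    intro h
    refine h1 (norm_of_real (τ := -(2 * ε)) h0 ?_ ?_)
    · rw [abs_neg, abs_mul, hε]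
      norm_num
    · push_cast
      linear_combination h
  refine ⟨hne, ?_⟩
  rw [mem_slitPlane_iff_not_le_zero]
  intro hle
  obtain ⟨hre, him⟩ := Complex.le_def.1 hle
  rw [zero_re] at hre
  rw [zero_im] at him
  set r : ℝ := -((t + ω + ω⁻¹) / (ω + ω⁻¹ + 2 * ε)).re with hr
  have hr0 : 0 ≤ r := by linarith
  have e1 : (t + ω + ω⁻¹) / (ω + ω⁻¹ + 2 * ε) = -(r : ℂ) := by
    apply Complex.ext
    · rw [neg_re, ofReal_re, hr, neg_neg]
    · rw [neg_im, ofReal_im, neg_zero, him]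
  rw [div_eq_iff hne] at e1
  refine h1 (norm_of_real (τ := -(t + 2 * ε * r) / (1 + r)) h0 ?_ ?_)
  · rw [abs_div, abs_neg, abs_of_pos (by linarith : 0 < 1 + r), div_le_iff₀ (by linarith)]
    refine (abs_add_le _ _).trans ?_
    rw [abs_mul, abs_mul, hε, abs_of_nonneg hr0, abs_two]
    linarith
  · have h2 : ((1 + r : ℝ) : ℂ) ≠ 0 := by
      exact_mod_cast (by linarith : (1 + r : ℝ) ≠ 0)
    push_cast at h2 ⊢
    rw [eq_div_iff h2]
    linear_combination e1

/-- half of the logarithm -/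
theorem exp_half_log {f : ℂ} (hf : f ≠ 0) : exp (log f / 2) ^ 2 = f := by
  rw [← exp_nat_mul]
  push_cast
  rw [mul_div_cancel₀ _ (two_ne_zero), exp_log hf]

theorem exp_half_log_re {f : ℂ} (hf : f ∈ slitPlane) : 0 < (exp (log f / 2)).re := by
  rw [exp_re]
  have h1 : (log f / 2).im = f.arg / 2 := by
    rw [← log_im]
    have : log f / 2 = ((1 / 2 : ℝ) : ℂ) * log f := by
      push_cast
      ring
    rw [this, im_ofReal_mul]
    ring
  rw [h1]
  refine mul_pos (Real.exp_pos _) (Real.cos_pos_of_mem_Ioo ⟨?_, ?_⟩)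
  · have := neg_pi_lt_arg f
    linarith
  · have h2 := arg_lt_pi_iff.2 (mem_slitPlane_iff.1 hf |>.imp (fun h => h.le) id)
    linarith

/-- The branch. -/
structure Half (ω t p q : ℂ) (V : Set ℂ) (Y : ℂ → ℂ) : Prop where
  isOpen : IsOpen V
  mem : ∀ t : ℝ, |t| ≤ 2 → (t : ℂ) ∈ V
  diff : DifferentiableOn ℂ Y V
  eq : ∀ u ∈ V, ω * Y u ^ 2 + t = u
  rep : ∀ u ∈ V, 0 < (Y u * conj p).re
  req : ∀ u ∈ V, 0 < (Y u * conj q).re

theorem exists_half {ω : ℂ} (h1 : 1 < ‖ω‖) :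
    ∃ (V : Set ℂ) (Y : ℂ → ℂ), Half ω (-(ω + ω⁻¹)) (1 + ω⁻¹) (1 - ω⁻¹) V Y := by
  have h0 : ω ≠ 0 := by
    rw [← norm_pos_iff]
    linarith
  have hp2 : ω * (1 + ω⁻¹) ^ 2 = ω + ω⁻¹ + 2 * (1 : ℝ) := by
    push_cast
    field_simp
    ring
  have hq2 : ω * (1 - ω⁻¹) ^ 2 = ω + ω⁻¹ + 2 * ((-1 : ℝ) : ℂ) := by
    push_cast
    field_simp
    ring
  have hs1 : |(1 : ℝ)| = 1 := abs_one
  have hs2 : |(-1 : ℝ)| = 1 := by rw [abs_neg, abs_one]
  set a : ℂ := ω + ω⁻¹ + 2 * (1 : ℝ) with ha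
  set b : ℂ := ω + ω⁻¹ + 2 * ((-1 : ℝ) : ℂ) with hb
  have ha0 : a ≠ 0 := (mem_slit (t := 0) h0 h1.ne' hs1 (by norm_num)).1
  have hb0 : b ≠ 0 := (mem_slit (t := 0) h0 h1.ne' hs2 (by norm_num)).1
  set p : ℂ := 1 + ω⁻¹ with hp
  set q : ℂ := 1 - ω⁻¹ with hq
  have hp0 : p ≠ 0 := by
    intro h
    rw [h] at hp2
    norm_num at hp2
    exact ha0 hp2.symm
  have hq0 : q ≠ 0 := by
    intro h
    rw [h] at hq2
    norm_num at hq2
    exact hb0 hq2.symm
  set f : ℂ → ℂ := fun u => (u + ω + ω⁻¹) / a with hf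
  set g : ℂ → ℂ := fun u => (u + ω + ω⁻¹) / b with hg
  have cf : Continuous f := ((continuous_id.add continuous_const).add continuous_const).div_const _
  have cg : Continuous g := ((continuous_id.add continuous_const).add continuous_const).div_const _
  set V₀ : Set ℂ := f ⁻¹' slitPlane ∩ g ⁻¹' slitPlane with hV₀
  have hV₀o : IsOpen V₀ := (isOpen_slitPlane.preimage cf).inter (isOpen_slitPlane.preimage cg)
  have hsub : seg ⊆ V₀ := by
    rintro _ ⟨t, ht, rfl⟩
    exact ⟨(mem_slit h0 h1.ne' hs1 (abs_le.2 ht)).2, (mem_slit h0 h1.ne' hs2 (abs_le.2 ht)).2⟩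
  obtain ⟨δ, hδ, hδV⟩ := isCompact_seg.exists_thickening_subset_open hV₀o hsub
  set V : Set ℂ := thickening δ seg with hV
  have hVc : Convex ℝ V := convex_seg.thickening δ
  have hmem : ∀ t : ℝ, |t| ≤ 2 → (t : ℂ) ∈ V := fun t ht =>
    self_subset_thickening hδ _ (mem_seg ht)
  set E : ℂ → ℂ := fun u => exp (log (f u) / 2) with hE
  have hEd : DifferentiableOn ℂ E V := by
    intro u hu
    have h2 : f u ∈ slitPlane := (hδV hu).1
    have h3 : DifferentiableAt ℂ f u :=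
      ((differentiableAt_id.add_const _).add_const _).div_const _
    exact (((h3.clog h2).div_const 2).cexp).differentiableWithinAt
  have hE2 : ∀ u ∈ V, E u ^ 2 = f u := fun u hu => exp_half_log (slitPlane_ne_zero (hδV hu).1)
  have hEre : ∀ u ∈ V, 0 < (E u).re := fun u hu => exp_half_log_re (hδV hu).1
  have hsq : ∀ u ∈ V, ω * (p * E u) ^ 2 + -(ω + ω⁻¹) = u := by
    intro u hu
    have h2 : ω * (p * E u) ^ 2 = (ω * p ^ 2) * E u ^ 2 := by ring
    rw [h2, hE2 u hu, hp2, hf]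
    simp only
    rw [mul_div_cancel₀ _ ha0]
    ring
  refine ⟨V, fun u => p * E u, isOpen_thickening, hmem, (differentiableOn_const _).mul hEd, hsq,
    fun u hu => ?_, ?_⟩
  · have h2 : p * E u * conj p = ((normSq p : ℝ) : ℂ) * E u := by
      rw [← mul_conj]
      ring
    rw [h2, re_ofReal_mul]
    exact mul_pos (normSq_pos.2 hp0) (hEre u hu)
  · -- the other half plane
    set G : ℂ → ℂ := fun u => p * E u / q with hG
    have hGc : ContinuousOn G V := ((continuousOn_const.mul hEd.continuousOn).div_const _)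
    have hG2 : ∀ u ∈ V, G u ^ 2 = g u := by
      intro u hu
      have h2 := hsq u hu
      simp only [hG, hg]
      rw [div_pow, eq_div_iff hb0, div_mul_eq_mul_div, div_eq_iff (pow_ne_zero 2 hq0), ← hq2]
      linear_combination (q ^ 2) * h2
    have hGre : ∀ u ∈ V, (G u).re ≠ 0 := by
      intro u hu h2
      have h3 : g u ∈ slitPlane := (hδV hu).2
      rw [← hG2 u hu, mem_slitPlane_iff_not_le_zero] at h3
      apply h3
      have h4 : G u = ((G u).im : ℂ) * I := by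
        apply Complex.ext
        · simp [h2]
        · simp
      rw [h4, mul_pow, I_sq]
      have h5 : ((G u).im : ℂ) ^ 2 * -1 = ((-(G u).im ^ 2 : ℝ) : ℂ) := by
        push_cast
        ring
      rw [h5]
      exact_mod_cast (by nlinarith [sq_nonneg (G u).im] : (-(G u).im ^ 2 : ℝ) ≤ 0)
    have h2V : (2 : ℂ) ∈ V := by
      have := hmem 2 (by norm_num)
      simpa using this
    have hG0 : 0 < (G 2).re := by
      have h2 : f 2 = 1 := by
        simp only [hf]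
        rw [div_eq_one_iff_eq ha0, ha]
        push_cast
        ring
      have h3 : E 2 = 1 := by
        simp only [hE]
        rw [h2, log_one, zero_div, exp_zero]
      have h4 : G 2 = p / q := by
        simp only [hG]
        rw [h3, mul_one]
      rw [h4, div_eq_mul_inv, inv_def, ← mul_assoc, re_mul_ofReal]
      refine mul_pos ?_ (inv_pos.2 (normSq_pos.2 hq0))
      have h5 : ‖ω⁻¹‖ < 1 := by
        rw [norm_inv]
        exact inv_lt_one_of_one_lt₀ h1
      have h6 : (p * conj q).re = 1 - normSq ω⁻¹ := by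
        rw [hp, hq]
        have h7 : (1 + ω⁻¹) * conj (1 - ω⁻¹) = 1 + (ω⁻¹ - conj ω⁻¹) - ω⁻¹ * conj ω⁻¹ := by
          rw [map_sub, map_one]
          ring
        rw [h7, mul_conj, sub_re, add_re, one_re, ofReal_re, sub_re, conj_re, sub_self, add_zero]
      rw [h6, normSq_eq_norm_sq]
      have h8 := norm_nonneg ω⁻¹
      nlinarith
    have key : ∀ u ∈ V, 0 < (G u).re := by
      intro u hu
      by_contra hcon
      push Not at hcon
      have h3 : IsPreconnected ((fun u => (G u).re) '' V) :=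
        hVc.isPreconnected.image _ (Complex.continuous_re.comp_continuousOn hGc)
      have h4 := h3.Icc_subset ⟨u, hu, rfl⟩ ⟨2, h2V, rfl⟩ ⟨hcon, hG0.le⟩
      obtain ⟨v, hv, hv'⟩ := h4
      exact hGre v hv hv'
    intro u hu
    have h2 : p * E u * conj q = ((normSq q : ℝ) : ℂ) * G u := by
      simp only [hG]
      rw [← mul_conj]
      field_simp
    rw [h2, re_ofReal_mul]
    exact mul_pos (normSq_pos.2 hq0) (key u hu)

theorem exists_half' {ω : ℂ} (h0 : ω ≠ 0) (h1 : ‖ω‖ < 1) :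
    ∃ (V : Set ℂ) (Y : ℂ → ℂ), Half ω (-(ω + ω⁻¹)) (1 + ω⁻¹) (-(1 - ω⁻¹)) V Y := by
  have h2 : 1 < ‖ω⁻¹‖ := by
    rw [norm_inv]
    exact (one_lt_inv₀ (norm_pos_iff.2 h0)).2 h1
  obtain ⟨V, Y, h⟩ := exists_half h2
  have hn := normSq_pos.2 h0
  refine ⟨V, fun u => ω⁻¹ * Y u, h.isOpen, h.mem, (differentiableOn_const _).mul h.diff,
    fun u hu => ?_, fun u hu => ?_, fun u hu => ?_⟩
  · have h3 := h.eq u hu
    rw [inv_inv] at h3
    have h4 : ω * (ω⁻¹ * Y u) ^ 2 = ω⁻¹ * Y u ^ 2 := by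
      field_simp
    rw [h4]
    linear_combination h3
  · have h3 := h.rep u hu
    rw [inv_inv] at h3
    have h4 : ω⁻¹ * Y u * conj (1 + ω⁻¹) = (((normSq ω)⁻¹ : ℝ) : ℂ) * (Y u * conj (1 + ω)) := by
      have h5 : conj ω ≠ 0 := (map_ne_zero _).2 h0
      rw [ofReal_inv, ← mul_conj, map_add, map_add, map_one, map_inv₀]
      field_simp
      ring
    rw [h4, re_ofReal_mul]
    exact mul_pos (inv_pos.2 hn) h3
  · have h3 := h.req u hu
    rw [inv_inv] at h3
    have h4 : ω⁻¹ * Y u * conj (-(1 - ω⁻¹)) =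
        (((normSq ω)⁻¹ : ℝ) : ℂ) * (Y u * conj (1 - ω)) := by
      have h5 : conj ω ≠ 0 := (map_ne_zero _).2 h0
      rw [ofReal_inv, ← mul_conj, map_neg, map_sub, map_sub, map_one, map_inv₀]
      field_simp
      ring
    rw [h4, re_ofReal_mul]
    exact mul_pos (inv_pos.2 hn) h3

end Pool.Agent.Y775.UN
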