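import Pool.Agent.Y775.UN.Half
import Pool.Agent.Y775.CC.Avg
import Pool.Agent.TH690.UE.Final
set_option autoImplicit false

/-!
Loops on the curve `z + 1/z = w x² - w - 1/w` at an embedding with `|w| ≠ 1`, and the signs of the
regulators of `{z, (x - p)/(x + p)}` and `{z, (x - q)/(x + q)}`, `p = 1 + 1/w`, `q = 1 - 1/w`, on them.
-/

namespace Pool.Agent.Y775.UN

open Polynomial Metric MeasureTheory

open Pool.Agent.TH826.MK (KQ symb Torus Unramified circ norm_circ contDiff_circ circ_add_one)

open Pool.Agent.TH826.HD Pool.Agent.TH826.UH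

open Pool.Agent.TH690.UR (wn)

open Pool.Agent.TH690.UE

open Pool.Agent.TH690.UF (SmoothPts)

open scoped Real ComplexConjugate

theorem wn_half {H : ℝ → ℂ} (hH : ContDiff ℝ 2 H) (hper : ∀ t, H (t + 1) = H t) {c : ℂ}
    (h : ∀ t, 0 < (H t * conj c).re) : NZ H ∧ wn H = 0 := by
  have hslit : ∀ t, H t * conj c ∈ Complex.slitPlane := fun t => Or.inl (h t)
  have hne : ∀ t, H t ≠ 0 := by
    intro t h0
    have := h t
    rw [h0, zero_mul] at this
    exact lt_irrefl _ this
  have hc : conj c ≠ 0 := by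
    intro h0
    have := h 0
    rw [h0, mul_zero] at this
    exact lt_irrefl _ this
  have hNZ : NZ H := ⟨hH, hne⟩
  refine ⟨hNZ, ?_⟩
  have hd : ∀ t, HasDerivAt (fun t => Complex.log (H t * conj c)) (deriv H t / H t) t := by
    intro t
    have h1 : HasDerivAt H (deriv H t) t :=
      ((hH.differentiable (by norm_num)) t).hasDerivAt
    have h2 := (h1.mul_const (conj c)).clog_real (hslit t)
    have e : deriv H t * conj c / (H t * conj c) = deriv H t / H t :=
      mul_div_mul_right _ _ hc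
    rw [e] at h2
    exact h2
  have h3 : ∫ t in (0 : ℝ)..1, deriv H t / H t = 0 := by
    rw [intervalIntegral.integral_eq_sub_of_hasDerivAt (fun t _ => hd t)
      (hNZ.cont_ld.intervalIntegrable _ _)]
    have h4 := hper 0
    rw [zero_add] at h4
    rw [h4, sub_self]
  have h2 := Complex.imCLM.intervalIntegral_comp_comm
    (hNZ.cont_ld.intervalIntegrable (μ := volume) 0 1)
  rw [h3] at h2
  unfold wn
  refine h2.trans ?_
  simp

variable {K : Type*} [Field K] {s : K →+* ℂ} {c t p q : K} {V : Set ℂ} {Y : ℂ → ℂ}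

theorem exists_loop_half (h : Half (s c) (s t) (s p) (s q) V Y) (hc : c ≠ 0)
    (hp : Spc s (c * p ^ 2 + t)) (hq : Spc s (c * q ^ 2 + t)) :
    ∃ X Z : ℝ → ℂ, LoopOn s c t X Z ∧ 0 < dpr s X Z p * dpr s X Z q := by
  obtain ⟨R, hR, hRV⟩ := Pool.Agent.Y775.CC.exists_radius' h.isOpen h.mem
  have hR0 : 0 < R := one_pos.trans hR
  have hz := nz_circ hR0
  set u : ℝ → ℂ := fun t => circ R t + (circ R t)⁻¹ with hu
  have hucd : ContDiff ℝ 2 u := (contDiff_circ R).add ((contDiff_circ R).inv hz.ne_zero)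
  have hub : ∀ t, u t ∈ V := by
    intro t
    have h1 : ‖circ R t‖ = R := norm_circ hR0.le t
    exact hRV _ (by rw [h1]; exact hR.le) h1.le
  have hper : ∀ t, u (t + 1) = u t := fun t => by
    simp only [hu, circ_add_one]
  set X : ℝ → ℂ := fun y => Y (u y) with hX
  have hYcd : ContDiff ℝ 2 X := by
    rw [contDiff_iff_contDiffAt]
    intro t
    have han : AnalyticAt ℂ Y (u t) := h.diff.analyticAt (h.isOpen.mem_nhds (hub t))
    exact (han.contDiffAt.restrict_scalars ℝ).comp t hucd.contDiffAt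
  have hYper : ∀ t, X (t + 1) = X t := fun t => by
    simp only [hX, hper]
  have hval : ∀ y, s c * X y ^ 2 + s t = u y := fun y => h.eq _ (hub y)
  have hdiff : ∀ w : K, ∀ ζ : ℂ, s (c * w ^ 2 + t) = ζ + ζ⁻¹ → ∀ y,
      s c * ((X y - s w) * (X y - s (-w))) = circ R y + (circ R y)⁻¹ - (ζ + ζ⁻¹) := by
    intro w ζ hζ' y
    have h3 := hval y
    have h4 : u y = circ R y + (circ R y)⁻¹ := rfl
    rw [← h4, ← h3, ← hζ']
    simp only [map_add, map_mul, map_pow, map_neg]
    ring
  have hne : ∀ w : K, Spc s (c * w ^ 2 + t) → ∀ y, X y ≠ s w := by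
    intro w hw y h
    obtain ⟨ζ, hζ, hζ'⟩ := hw
    have h1 := hdiff w ζ hζ' y
    rw [h, sub_self, zero_mul, mul_zero] at h1
    exact (wn_joukowski hR hζ).1.ne_zero y h1.symm
  have hLoop : LoopOn s c t X (circ R) := by
    refine ⟨hYcd, hz, hYper, circ_add_one R, fun y => ?_, hne⟩
    rw [hval y]
    have h2 : circ R y * (circ R y)⁻¹ = 1 := mul_inv_cancel₀ (hz.ne_zero y)
    have h4 : u y = circ R y + (circ R y)⁻¹ := rfl
    rw [h4]
    linear_combination -h2
  refine ⟨X, circ R, hLoop, ?_⟩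
  have nY : ∀ w : K, Spc s (c * w ^ 2 + t) → NZ fun y => X y - s w := fun w hw =>
    ⟨hYcd.sub contDiff_const, fun y => sub_ne_zero.2 (hne w hw y)⟩
  have hc0 : s c ≠ 0 := (map_ne_zero s).2 hc
  have key : ∀ w : K, Spc s (c * w ^ 2 + t) → (∀ y, 0 < (X y * conj (s w)).re) →
      0 < dpr s X (circ R) w := by
    intro w hw hside
    have n1 := nY w hw
    have hplus : ∀ y, 0 < ((X y - s (-w)) * conj (s w)).re := by
      intro y
      have e : (X y - s (-w)) * conj (s w) = X y * conj (s w) + ((Complex.normSq (s w) : ℝ) : ℂ) := by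
        rw [← Complex.mul_conj, map_neg]
        ring
      rw [e, Complex.add_re, Complex.ofReal_re]
      have h1 := hside y
      have h2 := Complex.normSq_nonneg (s w)
      linarith
    obtain ⟨n2, w2⟩ := wn_half (hYcd.sub contDiff_const)
      (fun t => by simp only [hYper]) hplus
    have w1 : wn (fun y => X y - s w) = 2 * π := by
      obtain ⟨ζ, hζ, hζ'⟩ := hw
      have hcc : NZ fun _ : ℝ => s c := ⟨contDiff_const, fun _ => hc0⟩
      have h1 := wn_mul hcc (n1.mul n2)
      have h2 : (fun y => s c * ((X y - s w) * (X y - s (-w)))) =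
          fun y => circ R y + (circ R y)⁻¹ - (ζ + ζ⁻¹) := funext fun y => hdiff w ζ hζ' y
      have h3 : wn (fun _ : ℝ => s c) = 0 := by
        unfold wn
        simp
      rw [h2, (wn_joukowski hR hζ).2, wn_mul n1 n2, w2, h3] at h1
      linarith
    unfold dpr
    rw [pr_circ_eq hR0 n1, pr_circ_eq hR0 n2, w1, w2]
    have hle : ∀ y, ‖X y - s w‖ ≤ ‖X y - s (-w)‖ := by
      intro y
      have h2 : ‖X y - s w‖ ^ 2 ≤ ‖X y - s (-w)‖ ^ 2 := by
        rw [map_neg, ← Complex.normSq_eq_norm_sq, ← Complex.normSq_eq_norm_sq, Complex.normSq_sub,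
          Complex.normSq_sub, Complex.normSq_neg, map_neg, mul_neg, Complex.neg_re]
        have := hside y
        linarith
      exact (pow_le_pow_iff_left₀ (norm_nonneg _) (norm_nonneg _) two_ne_zero).1 h2
    have hint : ∫ y in (0 : ℝ)..1, Real.log ‖X y - s w‖ ≤
        ∫ y in (0 : ℝ)..1, Real.log ‖X y - s (-w)‖ := by
      refine intervalIntegral.integral_mono_on zero_le_one
        (n1.cont_log.intervalIntegrable _ _) (n2.cont_log.intervalIntegrable _ _) fun y _ => ?_
      exact Real.log_le_log (norm_pos_iff.2 (n1.ne_zero y)) (hle y)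
    have hlog : 0 < Real.log R := Real.log_pos hR
    have hpi := Real.pi_pos
    have h5 : 0 < Real.log R * (2 * π) := by positivity
    have h6 := mul_le_mul_of_nonneg_left hint (by positivity : 0 ≤ 2 * π)
    linarith
  exact mul_pos (key p hp fun y => h.rep _ (hub y)) (key q hq fun y => h.req _ (hub y))

/-- The curve is smooth. -/
theorem smooth_qf (hc : c ≠ 0) (h2 : t ≠ 2) (h2' : t ≠ -2) : SmoothPts s (qf c t) := by
  intro x z hxz
  by_cases h1 : 2 * z - (qf c t).eval₂ s x = 0
  · right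
    rw [eval₂_qf] at h1 hxz
    have h3 : s c * x ^ 2 + s t = 2 * z := by linear_combination -h1
    have h4 : z ^ 2 = 1 := by
      rw [h3] at hxz
      linear_combination -hxz
    have hz : z ≠ 0 := by
      intro h0
      rw [h0] at h4
      norm_num at h4
    have hd : (derivative (qf c t)).eval₂ s x = 2 * s c * x := by
      unfold qf
      simp
      ring
    rw [hd]
    refine mul_ne_zero (mul_ne_zero (mul_ne_zero two_ne_zero ((map_ne_zero s).2 hc)) ?_) hz
    intro hx
    rw [hx] at h3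
    have h5 : s t = 2 * z := by linear_combination h3
    have h6 : (z - 1) * (z + 1) = 0 := by linear_combination h4
    rcases mul_eq_zero.1 h6 with h7 | h7
    · apply h2
      apply s.injective
      rw [h5, map_ofNat]
      linear_combination 2 * h7
    · apply h2'
      apply s.injective
      rw [h5, map_neg, map_ofNat]
      linear_combination 2 * h7
  · exact Or.inl h1

/-- Two classes with independent regulators from loops with the right signs. -/
theorem twoClasses_loops.{u, v} {K : Type u} [Field K] {s : Fin 2 → (K →+* ℂ)} {c t p q : K}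
    (hc0 : c ≠ 0) (h2 : t ≠ 2) (h2' : t ≠ -2)
    (hc : IsIntegral ℤ c)
    (ht : IsIntegral ℤ t) (hp : IsIntegral ℤ p) (hq : IsIntegral ℤ q)
    (sp : ∀ l, Special (s l) (c * p ^ 2 + t)) (sq : ∀ l, Special (s l) (c * q ^ 2 + t))
    (h0 : ∃ X Z : ℝ → ℂ, LoopOn (s 0) c t X Z ∧ 0 < dpr (s 0) X Z p * dpr (s 0) X Z q)
    (h1 : ∃ X Z : ℝ → ℂ, LoopOn (s 1) c t X Z ∧ 0 < dpr (s 1) X Z p * dpr (s 1) X Z (-q)) :
    TwoClasses.{u, v} (qf c t) (pts p q) s := by
  have hdegF : 0 < (qf c t).natDegree := by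
    rw [natDegree_qf hc0]
    norm_num
  refine ⟨isDomain_PRing hdegF, fun l => smooth_qf hc0 h2 h2', ?_, ?_⟩
  · intro L _ _ _
    have hinj : Function.Injective (algebraMap (PRing (qf c t)) L) := IsFractionRing.injective _ _
    have hdom : IsDomain (PRing (qf c t)) := isDomain_PRing hdegF
    have hne : algebraMap (PRing (qf c t)) L (pDel (qf c t) (pts p q)) ≠ 0 := by
      rw [Ne, map_eq_zero_iff _ hinj]
      exact pDel_ne_zero (pts p q)
    refine ⟨liftP (algebraMap (PRing (qf c t)) L) hne, fun r => liftP_toP _ _ _,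
      fun m l => symb_mem_unramified _ (s 0) (integral_qf hc ht) (fun m => ?_) m l
        (fun m => ?_)⟩
    · fin_cases m
      · exact hp
      · exact hp.neg
      · exact hq
      · exact hq.neg
    · fin_cases m
      · show Special (s 0) ((qf c t).eval p)
        rw [eval_qf]
        exact sp 0
      · show Special (s 0) ((qf c t).eval (-p))
        rw [eval_qf, neg_sq]
        exact sp 0
      · show Special (s 0) ((qf c t).eval q)
        rw [eval_qf]
        exact sq 0
      · show Special (s 0) ((qf c t).eval (-q))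
        rw [eval_qf, neg_sq]
        exact sq 0
  · obtain ⟨X₀, Z₀, l0, n0⟩ := h0
    obtain ⟨X₁, Z₁, l1, n1⟩ := h1
    rw [dpr_neg, mul_neg, neg_pos] at n1
    obtain ⟨Γ₀, e0, a0, b0⟩ := l0.torus (sp 0).spc (sq 0).spc
    obtain ⟨Γ₁, e1, a1, b1⟩ := l1.torus (sp 1).spc (sq 1).spc
    refine ⟨![Γ₀, Γ₁], fun l => ?_, ?_⟩
    · fin_cases l
      · exact e0
      · exact e1
    · rw [Matrix.det_fin_two]
      have h1 := det_ne (Or.inr ⟨n0, n1⟩)
      rw [← a0, ← b0, ← a1, ← b1] at h1
      exact h1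

end Pool.Agent.Y775.UN
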